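import Pool.Agent.X112.HP.Stm

set_option autoImplicit false

namespace Pool.Agent.X106.HP
open Finset Matrix

section
variable {ι κ : Type} [Fintype ι] [Fintype κ] [DecidableEq ι] [DecidableEq κ]

theorem exRepr (g : ι → κ → ℤ) (h : AddSubgroup.closure (Set.range g) = ⊤) (v : κ → ℤ) :
    ∃ b : ι → ℤ, ∑ i, b i • g i = v := by
  have hv : v ∈ AddSubgroup.closure (Set.range g) := by rw [h]; trivial
  have h2 : v ∈ Submodule.span ℤ (Set.range g) := by
    have : AddSubgroup.closure (Set.range g) ≤ (Submodule.span ℤ (Set.range g)).toAddSubgroup := by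
      rw [AddSubgroup.closure_le]
      intro x hx
      exact Submodule.subset_span hx
    exact this hv
  rw [Submodule.mem_span_range_iff_exists_fun] at h2
  exact h2

theorem exTau (g : ι → κ → ℤ) (h : AddSubgroup.closure (Set.range g) = ⊤) :
    ∃ τ : κ → ι, Matrix.det (fun k => g (τ k) : Matrix κ κ ℤ) ≠ 0 := by
  choose b hb using fun k : κ => exRepr g h (Pi.single k 1)
  by_contra hcon
  push Not at hcon
  have h2 : (1 : Matrix κ κ ℤ) = fun k => ∑ i, b k i • g i := by
    ext k l
    rw [hb k]
    simp [Matrix.one_apply, Pi.single_apply, eq_comm]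
  have h3 : Matrix.detRowAlternating (R := ℤ) (n := κ) (fun k => ∑ i, b k i • g i) =
      ∑ r : κ → ι, Matrix.detRowAlternating (R := ℤ) (n := κ) (fun k => b k (r k) • g (r k)) :=
    (Matrix.detRowAlternating (R := ℤ) (n := κ)).toMultilinearMap.map_sum (fun k i => b k i • g i)
  have h4 : ∀ r : κ → ι, Matrix.detRowAlternating (R := ℤ) (n := κ) (fun k => b k (r k) • g (r k)) = 0 := by
    intro r
    have := (Matrix.detRowAlternating (R := ℤ) (n := κ)).toMultilinearMap.map_smul_univ
      (fun k => b k (r k)) (fun k => g (r k))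
    have h5 : Matrix.detRowAlternating (R := ℤ) (n := κ) (fun k => g (r k)) = 0 := hcon r
    simp only [AlternatingMap.coe_multilinearMap] at this
    rw [this, h5, smul_zero]
  have h6 : Matrix.det (1 : Matrix κ κ ℤ) = 0 := by
    rw [h2]
    change Matrix.detRowAlternating (R := ℤ) (n := κ) (fun k => ∑ i, b k i • g i) = 0
    rw [h3]
    exact Finset.sum_eq_zero fun r _ => h4 r
  rw [Matrix.det_one] at h6
  exact one_ne_zero h6

theorem detBd (A : Matrix κ κ ℤ) (x : ℕ) (h : ∀ i j, |A i j| ≤ x) :
    |A.det| ≤ ((Fintype.card κ).factorial * x ^ Fintype.card κ : ℕ) := by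
  have := Matrix.det_le (abv := AbsoluteValue.abs) (A := A) (x := (x : ℤ)) (fun i j => h i j)
  simpa [nsmul_eq_mul] using this

end

theorem t_BND : Pool.Agent.X112.HP.S_BND := by
  intro ι κ _ _ _ _ g H hH hcl k0
  obtain ⟨τ, hτ⟩ := exTau g hcl
  set G : Matrix κ κ ℤ := fun k => g (τ k) with hG
  set D : ℤ := G.det with hD
  set F : ℕ := (Fintype.card κ).factorial * (H + 1) ^ Fintype.card κ with hF
  have hτi : Function.Injective τ := by
    intro a b hab
    by_contra hne
    exact hτ (Matrix.det_zero_of_row_eq hne (by change g (τ a) = g (τ b); rw [hab]))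
  obtain ⟨b, hb⟩ := exRepr g hcl (Pi.single k0 1)
  -- bounds
  have hDF : |D| ≤ F := detBd G (H + 1) (fun i j => (hH _ _).trans (by push_cast; linarith))
  have hadj : ∀ l k, |G.adjugate l k| ≤ F := by
    intro l k
    rw [Matrix.adjugate_apply]
    refine detBd _ (H + 1) (fun i j => ?_)
    rw [Matrix.updateRow_apply]
    split_ifs with h
    · by_cases hjl : j = l
      · subst hjl; simp
      · simp [Pi.single_apply, hjl]; positivity
    · exact (hH _ _).trans (by push_cast; linarith)
  -- remainders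
  set r : ι → ℤ := fun i => b i % D with hr
  set q : ι → ℤ := fun i => b i / D with hq
  have hbr : ∀ i, b i = r i + D * q i := fun i => (Int.emod_add_mul_ediv (b i) D).symm
  have hr1 : ∀ i, |r i| ≤ F := fun i => by
    have h1 := Int.emod_nonneg (b i) hτ
    have h2 := Int.emod_lt_abs (b i) hτ
    rw [abs_of_nonneg h1]
    exact h2.le.trans hDF
  -- coefficients
  set c : κ → ℤ := ∑ i, q i • (g i ᵥ* G.adjugate) with hc
  have hcG : c ᵥ* G = ∑ i, (D * q i) • g i := by
    rw [hc, Matrix.sum_vecMul]
    refine Finset.sum_congr rfl fun i _ => ?_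
    rw [Matrix.smul_vecMul, Matrix.vecMul_vecMul, Matrix.adjugate_mul, Matrix.vecMul_smul,
      Matrix.vecMul_one, smul_smul, mul_comm]
  have hsum : ∑ i, r i • g i + c ᵥ* G = Pi.single k0 1 := by
    rw [hcG, ← hb, ← Finset.sum_add_distrib]
    refine Finset.sum_congr rfl fun i _ => ?_
    rw [← add_smul, ← hbr i]
  have hv : ∀ l, |(c ᵥ* G) l| ≤ 1 + Fintype.card ι * F * (H + 1) := by
    intro l
    have h1 : (c ᵥ* G) l = (Pi.single k0 1 : κ → ℤ) l - ∑ i, r i * g i l := by
      have := congrFun hsum l
      simp only [Pi.add_apply, Finset.sum_apply, Pi.smul_apply, smul_eq_mul] at this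
      linarith
    rw [h1]
    have h2 : |(Pi.single k0 1 : κ → ℤ) l| ≤ 1 := by
      rw [Pi.single_apply]; split_ifs <;> simp
    have h3 : |∑ i, r i * g i l| ≤ Fintype.card ι * F * (H + 1) := by
      refine (Finset.abs_sum_le_sum_abs _ _).trans ?_
      have : ∀ i ∈ (Finset.univ : Finset ι), |r i * g i l| ≤ (F : ℤ) * (H + 1) := fun i _ => by
        rw [abs_mul]
        exact mul_le_mul (hr1 i) ((hH i l).trans (by linarith)) (abs_nonneg _) (by positivity)
      refine (Finset.sum_le_card_nsmul _ _ _ this).trans ?_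
      rw [nsmul_eq_mul, Finset.card_univ]
      exact (mul_assoc _ _ _).ge
    exact (abs_sub _ _).trans (add_le_add h2 h3)
  have hDc : D • c = (c ᵥ* G) ᵥ* G.adjugate := by
    rw [Matrix.vecMul_vecMul, Matrix.mul_adjugate, Matrix.vecMul_smul, Matrix.vecMul_one]
  have hck : ∀ k, |c k| ≤ Fintype.card κ * F * (1 + Fintype.card ι * F * (H + 1)) := by
    intro k
    have h1 : |c k| ≤ |D * c k| := by
      rw [abs_mul]
      exact le_mul_of_one_le_left (abs_nonneg _) (Int.one_le_abs hτ)
    refine h1.trans ?_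
    have h2 : D * c k = ∑ l, (c ᵥ* G) l * G.adjugate l k := congrFun hDc k
    rw [h2]
    refine (Finset.abs_sum_le_sum_abs _ _).trans ?_
    have : ∀ l ∈ (Finset.univ : Finset κ), |(c ᵥ* G) l * G.adjugate l k| ≤
        (1 + Fintype.card ι * F * (H + 1) : ℤ) * F := fun l _ => by
      rw [abs_mul]
      exact mul_le_mul (hv l) (hadj l k) (abs_nonneg _) (by positivity)
    refine (Finset.sum_le_card_nsmul _ _ _ this).trans ?_
    rw [nsmul_eq_mul, Finset.card_univ]
    apply le_of_eq; ring
  -- final coefficients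
  refine ⟨fun i => r i + ∑ k ∈ Finset.univ.filter (fun k => τ k = i), c k, ?_, ?_⟩
  · have h1 : c ᵥ* G = ∑ i, (∑ k ∈ Finset.univ.filter (fun k => τ k = i), c k) • g i := by
      have h2 : c ᵥ* G = ∑ k, c k • g (τ k) := by
        ext l
        simp [Matrix.vecMul, dotProduct, hG, Finset.sum_apply]
      rw [h2]
      rw [← Finset.sum_fiberwise_of_maps_to (s := Finset.univ) (t := Finset.univ) (g := τ)
        (fun _ _ => Finset.mem_univ _)]
      refine Finset.sum_congr rfl fun i _ => ?_
      rw [Finset.sum_smul]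
      refine Finset.sum_congr rfl fun k hk => ?_
      rw [(Finset.mem_filter.1 hk).2]
    rw [← hsum, h1, ← Finset.sum_add_distrib]
    exact Finset.sum_congr rfl fun i _ => add_smul _ _ _
  · intro i
    have hcard : (Finset.univ.filter (fun k => τ k = i)).card ≤ 1 := by
      rw [Finset.card_le_one]
      intro a ha b hb
      exact hτi ((Finset.mem_filter.1 ha).2.trans (Finset.mem_filter.1 hb).2.symm)
    set X : ℤ := 1 + Fintype.card ι * F * (H + 1) with hX
    have hX1 : 1 ≤ X := by
      have : (0 : ℤ) ≤ Fintype.card ι * F * (H + 1) := by positivity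
      linarith
    have hFX : (F : ℤ) ≤ F * X := le_mul_of_one_le_right (by positivity) hX1
    have h2 : |∑ k ∈ Finset.univ.filter (fun k => τ k = i), c k| ≤ Fintype.card κ * F * X := by
      refine (Finset.abs_sum_le_sum_abs _ _).trans ?_
      refine (Finset.sum_le_card_nsmul _ _ _ (fun k _ => hck k)).trans ?_
      rw [nsmul_eq_mul]
      have : ((Finset.univ.filter (fun k => τ k = i)).card : ℤ) ≤ 1 := by exact_mod_cast hcard
      have hnn : (0 : ℤ) ≤ Fintype.card κ * F * X := by positivity
      exact mul_le_of_le_one_left hnn this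
    have h3 : |r i + ∑ k ∈ Finset.univ.filter (fun k => τ k = i), c k| ≤
        (F : ℤ) + Fintype.card κ * F * X := (abs_add_le _ _).trans (add_le_add (hr1 i) h2)
    refine h3.trans ?_
    have h4 : (Pool.Agent.X112.HP.Bd (Fintype.card ι) (Fintype.card κ) H : ℤ) =
        (Fintype.card κ + 1) * F * X := by
      simp only [Pool.Agent.X112.HP.Bd, ← hF, hX]
      push_cast
      ring
    rw [h4]
    nlinarith

end Pool.Agent.X106.HP
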